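import Pool.Agent.Helper69.AS.St

/-!
# Project AS (MP_d112a4_gt): module EQ (equivariance, moving the flat disc)
-/

set_option autoImplicit false

open Filter Topology Matrix Set MeasureTheory
open scoped ENNReal ComplexOrder

namespace Pool.Agent.Helper38.AS

open Pool.Agent.Helper35.PM Pool.Agent.Helper69.AS

/-- the area mean on a disc about the centre is invariant under rotations -/
theorem rot_mean (c : ℂ) (hc : ‖c‖ = 1) (s : ℝ) (g : ℂ → ℝ) :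
    (⨍ ζ in Metric.ball (0 : ℂ) s, g (c * ζ)) = ⨍ ζ in Metric.ball (0 : ℂ) s, g ζ := by
  have hmem : c ∈ Submonoid.unitSphere ℂ := mem_sphere_zero_iff_norm.2 hc
  let e : ℂ ≃ₗᵢ[ℝ] ℂ := rotation ⟨c, hmem⟩
  have he : ∀ ζ, e ζ = c * ζ := fun ζ => rfl
  have hmp : MeasurePreserving e := e.measurePreserving
  have hpre : e ⁻¹' Metric.ball (0 : ℂ) s = Metric.ball (0 : ℂ) s := by
    ext ζ
    simp only [mem_preimage, mem_ball_zero_iff, he, norm_mul, hc, one_mul]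
  have h := hmp.setIntegral_preimage_emb e.toHomeomorph.measurableEmbedding g
    (Metric.ball (0 : ℂ) s)
  rw [hpre] at h
  rw [setAverage_eq, setAverage_eq]
  congr 1

theorem df_rot (c : ℂ) (hc : ‖c‖ = 1) (s : ℝ) (g : ℂ → ℝ) :
    df s (fun ζ => g (c * ζ)) = df s g := by
  unfold df
  rw [rot_mean c hc s g]
  simp only [mul_zero]

theorem df_congr {s : ℝ} (hs : 0 < s) (hs1 : s < 1) {g g' : ℂ → ℝ} (h : ∀ ζ : ℂ, ‖ζ‖ < 1 → g ζ = g' ζ) :
    df s g = df s g' := by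
  unfold df
  rw [h 0 (by simp), setAverage_eq, setAverage_eq]
  congr 2
  refine setIntegral_congr_fun measurableSet_ball fun ζ hζ => h ζ ?_
  exact (mem_ball_zero_iff.1 hζ).trans hs1

theorem tanh_pos' {x : ℝ} (hx : 0 < x) : 0 < Real.tanh x := by
  rw [Real.tanh_eq_sinh_div_cosh]
  exact div_pos (Real.sinh_pos_iff.2 hx) (Real.cosh_pos x)

theorem tanh_ratio (x : ℝ) : (1 + Real.tanh x) / (1 - Real.tanh x) = Real.exp (2 * x) := by
  rw [Real.tanh_eq]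
  have h1 : 0 < Real.exp x := Real.exp_pos x
  have h2 : 0 < Real.exp (-x) := Real.exp_pos (-x)
  have h3 : Real.exp (2 * x) * Real.exp (-x) = Real.exp x := by
    rw [← Real.exp_add]; congr 1; ring
  have h5 : 1 + (Real.exp x - Real.exp (-x)) / (Real.exp x + Real.exp (-x)) =
      2 * Real.exp x / (Real.exp x + Real.exp (-x)) := by
    field_simp; ring
  have h6 : 1 - (Real.exp x - Real.exp (-x)) / (Real.exp x + Real.exp (-x)) =
      2 * Real.exp (-x) / (Real.exp x + Real.exp (-x)) := by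
    field_simp; ring
  rw [h5, h6, div_div_div_cancel_right₀ (by positivity), mul_div_mul_left _ _ two_ne_zero,
    div_eq_iff h2.ne', h3]

theorem ratio_mono {x y : ℝ} (hxy : x ≤ y) (hy : y < 1) : (1 + x) / (1 - x) ≤ (1 + y) / (1 - y) := by
  rw [div_le_div_iff₀ (by linarith) (by linarith)]
  nlinarith

/-- module EQ -/
theorem hEQ (hMB : StMB) (hPC : StPC) (hFL : StFL) (hCD : StCD) (hGP : StGP) : StEQ := by
  obtain ⟨hMB1, hMB2, hMB0, hMB4⟩ := hMB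
  intro R ρ₀ hR hρ0 hρ1
  set s₁ : ℝ := Real.tanh ((R + 2) / 2) with hs1
  have hs1pos : 0 < s₁ := tanh_pos' (by linarith)
  have hs1lt : s₁ < 1 := Real.tanh_lt_one _
  set σ₀ : ℝ := (ρ₀ + s₁) / (1 + ρ₀ * s₁) with hσ0
  have hden : 0 < 1 + ρ₀ * s₁ := by positivity
  have hσ0pos : 0 < σ₀ := div_pos (by linarith) hden
  have hσ0lt : σ₀ < 1 := by
    rw [hσ0, div_lt_one hden]; nlinarith
  set s : ℝ := (σ₀ + 1) / 2 with hs
  have hs0 : 0 < s := by rw [hs]; linarith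
  have hslt : s < 1 := by rw [hs]; linarith
  have hσs : σ₀ < s := by rw [hs]; linarith
  set ℓ : ℝ := 2 * Real.artanh s with hℓ
  have hℓpos : 0 < ℓ := by
    have := Real.artanh_pos (x := s) ⟨hs0, hslt⟩
    rw [hℓ]; linarith
  have hℓs : Real.tanh (ℓ / 2) = s := by
    rw [hℓ, mul_div_cancel_left₀ _ two_ne_zero]
    exact Real.tanh_artanh ⟨by linarith, hslt⟩
  have hrat : 1 ≤ (1 + ρ₀) / (1 - ρ₀) := by
    rw [le_div_iff₀ (by linarith)]; linarith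
  have hlog : 0 ≤ Real.log ((1 + ρ₀) / (1 - ρ₀)) := Real.log_nonneg hrat
  set K : ℝ := (s / (s - σ₀)) ^ 2 with hK
  have hK0 : 0 ≤ K := sq_nonneg _
  refine ⟨K + ℓ + Real.log ((1 + ρ₀) / (1 - ρ₀)), by linarith, ?_⟩
  intro u j A hPot hA hinv hcoc N hN
  have hN0 : (0 : ℝ) < N := by exact_mod_cast hN
  obtain ⟨z, hz, hzd⟩ := hGP (fun z => u z 0) j hPot ℓ N hℓpos hN
  have hz1 : ‖z‖ < 1 := lt_of_le_of_lt hz (Real.tanh_lt_one _)
  obtain ⟨⟨c, a⟩, hxA, hq⟩ := hcoc z hz1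
  have hc : ‖c‖ = 1 := (hA _ hxA).1
  have ha : ‖a‖ < 1 := (hA _ hxA).2
  have hinv' := hinv _ hxA
  simp only at hq hinv'
  set q : ℂ := mob (-z) a with hqdef
  have hq1 : ‖q‖ < 1 := lt_of_le_of_lt hq hρ1
  obtain ⟨c', hc', hcomp⟩ := hMB4 z a hz1 ha
  -- the composed potential
  have hmaps : MapsTo (mob z) (Metric.ball 0 1) (Metric.ball 0 1) := by
    intro ζ hζ
    rw [mem_ball_zero_iff] at hζ ⊢
    exact (hMB1 z ζ hz1 hζ).1
  have hPot' := hPC (fun z => u z 0) j hPot (mob z) (hMB2 z hz1) hmaps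
  have hσle : (‖q‖ + s₁) / (1 + ‖q‖ * s₁) ≤ σ₀ := by
    have hq0 : 0 ≤ ‖q‖ := norm_nonneg q
    rw [hσ0, div_le_div_iff₀ (by positivity) hden]
    nlinarith [mul_nonneg (sub_nonneg.2 hq) (by nlinarith : (0 : ℝ) ≤ 1 - s₁ ^ 2)]
  have hσle0 : 0 ≤ (‖q‖ + s₁) / (1 + ‖q‖ * s₁) := by positivity
  have hcd := hCD _ _ hPot' q s₁ s hq1 hs1pos (lt_of_le_of_lt hσle hσs) hslt
  rw [hℓs] at hzd
  have hdf0 : 0 ≤ df s (fun ζ => u (mob z ζ) 0) := (hFL _ _ hPot' s hs0 hslt).2.1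
  have hE0 : 0 ≤ (u 0 0 - 1 / 2) / N := hdf0.trans hzd
  have hcd2 : df s₁ (fun ζ => u (mob z (mob q ζ)) 0) ≤ K * ((u 0 0 - 1 / 2) / N) := by
    refine hcd.trans ?_
    have hfac : (s / (s - (‖q‖ + s₁) / (1 + ‖q‖ * s₁))) ^ 2 ≤ K := by
      rw [hK]
      refine pow_le_pow_left₀ (div_nonneg hs0.le (by linarith)) ?_ 2
      exact div_le_div_of_nonneg_left hs0.le (by linarith) (by linarith)
    exact mul_le_mul hfac hzd hdf0 hK0
  -- rewriting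
  have h1 : df s₁ (fun ζ => u (mob z (mob q ζ)) 0) = df s₁ (fun ζ => u (mob a (c' * ζ)) 0) :=
    df_congr hs1pos hs1lt fun ζ hζ => by rw [hcomp ζ hζ]
  have h2 : df s₁ (fun ζ => u (mob a (c' * ζ)) 0) = df s₁ (fun ζ => u (mob a (c * ζ)) 0) := by
    rw [df_rot c' hc' s₁ (fun ζ => u (mob a ζ) 0), df_rot c hc s₁ (fun ζ => u (mob a ζ) 0)]
  have hc0 : c ≠ 0 := by
    intro h; rw [h, norm_zero] at hc; exact zero_ne_one hc
  set w : ℂ := (starRingEnd ℂ) (-a / c) with hw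
  have hwn : ‖w‖ = ‖a‖ := by
    rw [hw, RCLike.norm_conj, norm_div, norm_neg, hc, div_one]
  have hw1 : ‖w‖ < 1 := by rw [hwn]; exact ha
  have haut : autM c a w = 0 := by
    unfold autM mob
    rw [hw, Complex.conj_conj, mul_div_cancel₀ _ hc0]
    simp
  have h3 : df s₁ (fun ζ => u (mob a (c * ζ)) 0) = df s₁ (fun ζ => u ζ w) := by
    refine df_congr hs1pos hs1lt fun ζ hζ => ?_
    have := hinv' ζ w hζ hw1
    rw [haut] at this
    exact this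
  refine ⟨w, hw1, ?_, ?_⟩
  · -- size
    have hback : mob z q = a := by
      have := (hMB1 (-z) a (by rwa [norm_neg]) ha).2.2
      rwa [neg_neg] at this
    have hz0 : 0 ≤ ‖z‖ := norm_nonneg z
    have hq0 : 0 ≤ ‖q‖ := norm_nonneg q
    have ha1 : ‖a‖ ≤ (‖z‖ + ρ₀) / (1 + ‖z‖ * ρ₀) := by
      have h := (hMB1 z q hz1 hq1).2.1
      rw [hback] at h
      refine h.trans ?_
      rw [div_le_div_iff₀ (by positivity) (by positivity)]
      nlinarith [mul_nonneg (sub_nonneg.2 hq) (by nlinarith : (0 : ℝ) ≤ 1 - ‖z‖ ^ 2)]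
    have hd2 : 0 < 1 + ‖z‖ * ρ₀ := by positivity
    have hT1 : (‖z‖ + ρ₀) / (1 + ‖z‖ * ρ₀) < 1 := by
      rw [div_lt_one hd2]; nlinarith
    have hr1 : (1 + ‖w‖) / (1 - ‖w‖) ≤
        (1 + (‖z‖ + ρ₀) / (1 + ‖z‖ * ρ₀)) / (1 - (‖z‖ + ρ₀) / (1 + ‖z‖ * ρ₀)) := by
      rw [hwn]; exact ratio_mono ha1 hT1
    have hr2 : (1 + (‖z‖ + ρ₀) / (1 + ‖z‖ * ρ₀)) / (1 - (‖z‖ + ρ₀) / (1 + ‖z‖ * ρ₀)) =
        ((1 + ‖z‖) / (1 - ‖z‖)) * ((1 + ρ₀) / (1 - ρ₀)) := by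
      have e1 : 1 + (‖z‖ + ρ₀) / (1 + ‖z‖ * ρ₀) = ((1 + ‖z‖) * (1 + ρ₀)) / (1 + ‖z‖ * ρ₀) := by
        field_simp; ring
      have e2 : 1 - (‖z‖ + ρ₀) / (1 + ‖z‖ * ρ₀) = ((1 - ‖z‖) * (1 - ρ₀)) / (1 + ‖z‖ * ρ₀) := by
        field_simp; ring
      rw [e1, e2, div_div_div_cancel_right₀ hd2.ne', div_mul_div_comm]
    have hr3 : (1 + ‖z‖) / (1 - ‖z‖) ≤ Real.exp (N * ℓ) := by
      refine (ratio_mono hz (Real.tanh_lt_one _)).trans ?_
      rw [tanh_ratio]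
      apply le_of_eq
      congr 1; ring
    have hr4 : (1 + ρ₀) / (1 - ρ₀) = Real.exp (Real.log ((1 + ρ₀) / (1 - ρ₀))) :=
      (Real.exp_log (by linarith)).symm
    have hN1 : (1 : ℝ) ≤ N := by exact_mod_cast hN
    calc (1 + ‖w‖) / (1 - ‖w‖) ≤ ((1 + ‖z‖) / (1 - ‖z‖)) * ((1 + ρ₀) / (1 - ρ₀)) :=
          hr1.trans hr2.le
      _ ≤ Real.exp (N * ℓ) * ((1 + ρ₀) / (1 - ρ₀)) :=
          mul_le_mul_of_nonneg_right hr3 (by linarith)
      _ = Real.exp (N * ℓ + Real.log ((1 + ρ₀) / (1 - ρ₀))) := by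
          rw [Real.exp_add, ← hr4]
      _ ≤ Real.exp ((K + ℓ + Real.log ((1 + ρ₀) / (1 - ρ₀))) * N) := by
          apply Real.exp_le_exp.2
          nlinarith [mul_nonneg hK0 hN0.le, mul_nonneg hlog (by linarith : (0 : ℝ) ≤ N - 1)]
  · rw [← h3, ← h2, ← h1]
    refine hcd2.trans ?_
    exact mul_le_mul_of_nonneg_right (by linarith) hE0

end Pool.Agent.Helper38.AS
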